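import Pool.Agent.PFS.StmtsH

/-!
Rows GEO, NUM, GH3, GH4 of table pfs (guessing geodesics).
-/

set_option autoImplicit false

namespace Pool.Agent.PFS.H33

open Pool.Agent.PFS

theorem geo : GeoStmt := by
  intro X G hG x y
  obtain ⟨w, hw⟩ := hG.exists_walk_length_eq_dist x y
  refine ⟨w.getVert, w.getVert_zero, ?_, ?_⟩
  · rw [← hw]
    exact w.getVert_length
  · have hle : ∀ i j : ℕ, i ≤ j → j ≤ G.dist x y → G.dist (w.getVert i) (w.getVert j) ≤ j - i := by
      intro i j hij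
      induction j, hij using Nat.le_induction with
      | base =>
        intro _
        rw [SimpleGraph.dist_self]
        exact Nat.zero_le _
      | succ j hij ih =>
        intro hj
        have h1 := ih (by omega)
        have h2 : G.Adj (w.getVert j) (w.getVert (j + 1)) := by
          apply w.adj_getVert_succ
          omega
        have h3 : G.dist (w.getVert j) (w.getVert (j + 1)) = 1 := SimpleGraph.dist_eq_one_iff_adj.2 h2
        have h4 := hG.dist_triangle (u := w.getVert i) (v := w.getVert j) (w := w.getVert (j + 1))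
        omega
    intro i j hij hj
    have h1 := hle 0 i (Nat.zero_le _) (by omega)
    have h2 := hle i j hij hj
    have h3 := hle j (G.dist x y) hj le_rfl
    have h4 : G.dist (w.getVert 0) (w.getVert (G.dist x y)) = G.dist x y := by
      rw [w.getVert_zero, ← hw, w.getVert_length, hw]
    have h5 := hG.dist_triangle (u := w.getVert 0) (v := w.getVert i)
      (w := w.getVert (G.dist x y))
    have h6 := hG.dist_triangle (u := w.getVert i) (v := w.getVert j)
      (w := w.getVert (G.dist x y))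
    omega

theorem sq_le (j : ℕ) : j * j ≤ 4 * 2 ^ j := by
  have h1 : j = j / 2 + (j - j / 2) := by omega
  have h2 : 2 ^ j = 2 ^ (j / 2) * 2 ^ (j - j / 2) := by
    rw [← pow_add, ← h1]
  have h3 : j / 2 + 1 ≤ 2 ^ (j / 2) := Nat.lt_two_pow_self
  have h4 : j - j / 2 + 1 ≤ 2 ^ (j - j / 2) := Nat.lt_two_pow_self
  have h5 : (j / 2 + 1) * (j - j / 2 + 1) ≤ 2 ^ j := by
    rw [h2]
    exact Nat.mul_le_mul h3 h4
  obtain ⟨a, ha⟩ : ∃ a, a = j / 2 := ⟨_, rfl⟩
  obtain ⟨b, hb⟩ : ∃ b, b = j - j / 2 := ⟨_, rfl⟩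
  rw [← hb, ← ha] at h5
  have h6 : j = a + b := by omega
  have h7 : b ≤ a + 1 := by omega
  have h8 : a ≤ b := by omega
  generalize 2 ^ j = T at h5 ⊢
  subst h6
  nlinarith

theorem num : NumStmt := by
  intro h
  refine ⟨h * (96 * h + 12), ?_⟩
  intro D hD
  have hlt : 1 < 4 * D + 4 * h + 2 := by omega
  have h1 := hD (Nat.clog 2 (4 * D + 4 * h + 2)) (Nat.le_pow_clog (by norm_num) _)
  have h2 := Nat.pow_pred_clog_lt_self (b := 2) (by norm_num) hlt
  generalize Nat.clog 2 (4 * D + 4 * h + 2) = k at h1 h2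
  refine h1.trans (Nat.mul_le_mul_left h ?_)
  by_contra hcon
  push Not at hcon
  obtain ⟨j, hj⟩ : ∃ j, j = k.pred := ⟨_, rfl⟩
  have hk : k = j + 1 := by
    rw [hj]
    exact (Nat.succ_pred_eq_of_pos (by omega)).symm
  rw [← hj] at h2
  have h3 := sq_le j
  have h4 : 96 * h + 9 ≤ j := by omega
  subst hk
  have h5 : j * j ≤ 4 * (4 * (h * (j + 1 + 3)) + 4 * h + 2) := by
    calc j * j ≤ 4 * 2 ^ j := h3
      _ ≤ 4 * (4 * D + 4 * h + 2) := by omega
      _ ≤ _ := by omega
  nlinarith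

theorem gh3 (hGH2 : Gh2Stmt) : Gh3Stmt := by
  intro h
  obtain ⟨D₀, hD₀⟩ := hGH2 h
  refine ⟨3 * D₀ + 2 * h, ?_⟩
  intro X G L hL N c hc p hp
  classical
  obtain ⟨M, e, he0, heM, heL, hes⟩ := hL.chain (c 0) (c N)
  have hG := hL.conn
  have hQ0 : ∃ i ≤ p, G.dist (e 0) (c i) ≤ D₀ := ⟨0, Nat.zero_le _, by
    rw [he0, SimpleGraph.dist_self]; exact Nat.zero_le _⟩
  -- the last index of the chain that is near the first part of the geodesic
  obtain ⟨j, hjM, ⟨i, hip, hij⟩, hjmax⟩ : ∃ j ≤ M, (∃ i ≤ p, G.dist (e j) (c i) ≤ D₀) ∧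
      ∀ j', j < j' → j' ≤ M → ¬ ∃ i ≤ p, G.dist (e j') (c i) ≤ D₀ := by
    have hex : ∃ j ≤ M, ∃ i ≤ p, G.dist (e j) (c i) ≤ D₀ := ⟨0, Nat.zero_le _, hQ0⟩
    let s : Finset ℕ := (Finset.range (M + 1)).filter fun j => ∃ i ≤ p, G.dist (e j) (c i) ≤ D₀
    have hs : s.Nonempty := ⟨0, Finset.mem_filter.2 ⟨Finset.mem_range.2 (by omega), hQ0⟩⟩
    refine ⟨s.max' hs, ?_, ?_, ?_⟩
    · have := Finset.mem_filter.1 (s.max'_mem hs)
      have h2 := Finset.mem_range.1 this.1
      omega
    · exact (Finset.mem_filter.1 (s.max'_mem hs)).2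
    · intro j' hj' hj'M hcon
      have h1 : j' ∈ s := Finset.mem_filter.2 ⟨Finset.mem_range.2 (by omega), hcon⟩
      have h2 := s.le_max' j' h1
      omega
  refine ⟨e j, heL j hjM, ?_⟩
  have hci : G.dist (c i) (c p) = p - i := hc i p hip hp
  rcases Nat.lt_or_ge j M with hjM' | hjM'
  · have hn := hjmax (j + 1) (Nat.lt_succ_self j) hjM'
    obtain ⟨i', hi'N, hi'⟩ := hD₀ X G L hL N c hc (e (j + 1)) (heL _ hjM')
    have hi'p : p < i' := by
      by_contra hcon
      push Not at hcon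
      exact hn ⟨i', hcon, hi'⟩
    have h1 : G.dist (c i) (c i') = i' - i := hc i i' (by omega) hi'N
    have h2 := hes j hjM'
    have h3 := hG.dist_triangle (u := c i) (v := e j) (w := c i')
    have h4 := hG.dist_triangle (u := e j) (v := e (j + 1)) (w := c i')
    have h5 := hG.dist_triangle (u := c p) (v := c i) (w := e j)
    rw [SimpleGraph.dist_comm (u := c i) (v := e j)] at h3 h5
    rw [SimpleGraph.dist_comm (u := c p) (v := c i)] at h5
    omega
  · have hjeq : j = M := by omega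
    rw [hjeq, heM] at hij
    rw [hjeq, heM, hc p N hp le_rfl]
    rw [SimpleGraph.dist_comm, hc i N (by omega) le_rfl] at hij
    omega

theorem proj {X : Type} {G : SimpleGraph X} (hG : G.Connected) {D N N₁ N₂ : ℕ} {c e f : ℕ → X}
    {x y z : X} (hc : Geo G N c) (he : Geo G N₁ e) (hf : Geo G N₂ f) (hc0 : c 0 = x)
    (hcN : c N = y) (he0 : e 0 = x) (heN : e N₁ = z) (hf0 : f 0 = z) (hfN : f N₂ = y)
    (hs : ∀ p ≤ N, (∃ j ≤ N₁, G.dist (c p) (e j) ≤ D) ∨ (∃ j ≤ N₂, G.dist (c p) (f j) ≤ D)) :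
    ∃ p ≤ N, p + G.dist (c p) z ≤ G.dist x z + 2 * (D + 1) ∧
      G.dist z (c p) + (N - p) ≤ G.dist z y + 2 * (D + 1) := by
  classical
  let s : Finset ℕ := (Finset.range (N + 1)).filter fun p => ∃ j ≤ N₁, G.dist (c p) (e j) ≤ D
  have hs0 : (0 : ℕ) ∈ s := Finset.mem_filter.2 ⟨Finset.mem_range.2 (by omega), 0,
    Nat.zero_le _, by rw [hc0, he0, SimpleGraph.dist_self]; exact Nat.zero_le _⟩
  have hsne : s.Nonempty := ⟨0, hs0⟩
  obtain ⟨p, hp⟩ : ∃ p, p = s.max' hsne := ⟨_, rfl⟩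
  have hpm : p ∈ s := by rw [hp]; exact s.max'_mem hsne
  obtain ⟨hpN, j, hj, hpj⟩ := Finset.mem_filter.1 hpm
  have hpN' : p ≤ N := by
    have := Finset.mem_range.1 hpN
    omega
  have hfar : ∃ j' ≤ N₂, G.dist (c p) (f j') ≤ D + 1 := by
    rcases Nat.lt_or_ge p N with h1 | h1
    · rcases hs (p + 1) h1 with h2 | ⟨j', hj', h2⟩
      · exfalso
        have h3 : p + 1 ∈ s := Finset.mem_filter.2 ⟨Finset.mem_range.2 (by omega), h2⟩
        have h4 := s.le_max' _ h3
        omega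
      · refine ⟨j', hj', ?_⟩
        have h3 : G.dist (c p) (c (p + 1)) = p + 1 - p := hc p (p + 1) (by omega) h1
        have h4 := hG.dist_triangle (u := c p) (v := c (p + 1)) (w := f j')
        omega
    · have h2 : p = N := by omega
      refine ⟨N₂, le_rfl, ?_⟩
      rw [h2, hcN, hfN, SimpleGraph.dist_self]
      exact Nat.zero_le _
  obtain ⟨j', hj', hpj'⟩ := hfar
  have hxz : G.dist x z = N₁ := by
    rw [← he0, ← heN, he 0 N₁ (Nat.zero_le _) le_rfl]
    omega
  have hzy : G.dist z y = N₂ := by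
    rw [← hf0, ← hfN, hf 0 N₂ (Nat.zero_le _) le_rfl]
    omega
  have hxp : G.dist x (c p) = p := by
    rw [← hc0, hc 0 p (Nat.zero_le _) hpN']
    omega
  have hpy : G.dist (c p) y = N - p := by
    rw [← hcN, hc p N hpN' le_rfl]
  have hxe : G.dist x (e j) = j := by
    rw [← he0, he 0 j (Nat.zero_le _) hj]
    omega
  have hez : G.dist (e j) z = N₁ - j := by
    rw [← heN, he j N₁ hj le_rfl]
  have hzf : G.dist z (f j') = j' := by
    rw [← hf0, hf 0 j' (Nat.zero_le _) hj']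
    omega
  have hfy : G.dist (f j') y = N₂ - j' := by
    rw [← hfN, hf j' N₂ hj' le_rfl]
  refine ⟨p, hpN', ?_, ?_⟩
  · have h1 := hG.dist_triangle (u := x) (v := e j) (w := c p)
    have h2 := hG.dist_triangle (u := c p) (v := e j) (w := z)
    rw [SimpleGraph.dist_comm (u := e j) (v := c p)] at h1
    omega
  · have h1 := hG.dist_triangle (u := z) (v := f j') (w := c p)
    have h2 := hG.dist_triangle (u := c p) (v := f j') (w := y)
    rw [SimpleGraph.dist_comm (u := f j') (v := c p)] at h1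
    omega

theorem gh4 (hGEO : GeoStmt) : Gh4Stmt := by
  intro X G D hG hs x y z w
  obtain ⟨c, hc0, hcN, hc⟩ := hGEO X G hG x y
  obtain ⟨e, he0, heN, he⟩ := hGEO X G hG x z
  obtain ⟨f, hf0, hfN, hf⟩ := hGEO X G hG z y
  obtain ⟨e', he0', heN', he'⟩ := hGEO X G hG x w
  obtain ⟨f', hf0', hfN', hf'⟩ := hGEO X G hG w y
  obtain ⟨p, hpN, hp1, hp2⟩ := proj hG hc he hf hc0 hcN he0 heN hf0 hfN
    (hs x y z _ _ _ c e f hc he hf hc0 hcN he0 heN hf0 hfN)
  obtain ⟨q, hqN, hq1, hq2⟩ := proj hG hc he' hf' hc0 hcN he0' heN' hf0' hfN'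
    (hs x y w _ _ _ c e' f' hc he' hf' hc0 hcN he0' heN' hf0' hfN')
  have hyz : G.dist y z = G.dist z y := SimpleGraph.dist_comm
  have hyw : G.dist y w = G.dist w y := SimpleGraph.dist_comm
  have hzp : G.dist z (c p) = G.dist (c p) z := SimpleGraph.dist_comm
  have hwq : G.dist w (c q) = G.dist (c q) w := SimpleGraph.dist_comm
  rcases Nat.le_total p q with hpq | hpq
  · have h1 : G.dist (c p) (c q) = q - p := hc p q hpq hqN
    have h2 := hG.dist_triangle (u := z) (v := c p) (w := w)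
    have h3 := hG.dist_triangle (u := c p) (v := c q) (w := w)
    have h4 : G.dist x w + G.dist y z ≤
      max (G.dist x z + G.dist y w) (G.dist x w + G.dist y z) := le_max_right _ _
    omega
  · have h1 : G.dist (c q) (c p) = p - q := hc q p hpq hpN
    have h1' : G.dist (c p) (c q) = G.dist (c q) (c p) := SimpleGraph.dist_comm
    have h2 := hG.dist_triangle (u := z) (v := c p) (w := w)
    have h3 := hG.dist_triangle (u := c p) (v := c q) (w := w)
    have h4 : G.dist x z + G.dist y w ≤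
      max (G.dist x z + G.dist y w) (G.dist x w + G.dist y z) := le_max_left _ _
    omega

end Pool.Agent.PFS.H33
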